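import Mathlib
import Pool.Agent.MP_1609a8_nt.Defs

-- part MP_1609a8_nt.Alg
section

set_option autoImplicit false

namespace Pool.Agent.MP_1609a8_nt

open Filter Polynomial

theorem compact (R : Type) [CommRing R] (K : ℕ → Type) [∀ N, Field (K N)]
    (φ : ∀ N, R →+* K N) :
    ∃ (F : Type) (_ : Field F) (ψ : R →+* F),
      (∀ x, (∀ᶠ N in atTop, φ N x = 0) → ψ x = 0) ∧
      (∀ x, (∀ᶠ N in atTop, φ N x ≠ 0) → ψ x ≠ 0) := by
  let U : Ultrafilter ℕ := Ultrafilter.of atTop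
  have hU : (U : Filter ℕ) ≤ atTop := Ultrafilter.of_le _
  let P : Ideal R :=
    { carrier := {x | ∀ᶠ N in (U : Filter ℕ), φ N x = 0}
      add_mem' := fun {a b} ha hb => by
        have ha' : ∀ᶠ N in (U : Filter ℕ), φ N a = 0 := ha
        have hb' : ∀ᶠ N in (U : Filter ℕ), φ N b = 0 := hb
        show ∀ᶠ N in (U : Filter ℕ), φ N (a + b) = 0
        filter_upwards [ha', hb'] with N h1 h2
        rw [map_add, h1, h2, add_zero]
      zero_mem' := by
        show ∀ᶠ N in (U : Filter ℕ), φ N 0 = 0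
        exact Eventually.of_forall fun N => map_zero _
      smul_mem' := fun c x hx => by
        have hx' : ∀ᶠ N in (U : Filter ℕ), φ N x = 0 := hx
        show ∀ᶠ N in (U : Filter ℕ), φ N (c • x) = 0
        filter_upwards [hx'] with N h1
        rw [smul_eq_mul, map_mul, h1, mul_zero] }
  have hP : ∀ x, x ∈ P ↔ ∀ᶠ N in (U : Filter ℕ), φ N x = 0 := fun x => Iff.rfl
  have : P.IsPrime := by
    refine ⟨?_, ?_⟩
    · intro h
      have h1 : (1 : R) ∈ P := by rw [h]; trivial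
      rw [hP] at h1
      obtain ⟨N, hN⟩ := h1.exists
      simp at hN
    · intro x y hxy
      rw [hP] at hxy
      rw [hP, hP, ← Ultrafilter.eventually_or]
      filter_upwards [hxy] with N h
      rwa [map_mul, mul_eq_zero] at h
  refine ⟨FractionRing (R ⧸ P), inferInstance,
    (algebraMap (R ⧸ P) (FractionRing (R ⧸ P))).comp (Ideal.Quotient.mk P), ?_, ?_⟩
  · intro x hx
    have : Ideal.Quotient.mk P x = 0 := Ideal.Quotient.eq_zero_iff_mem.2 ((hP x).2 (hx.filter_mono hU))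
    simp [this]
  · intro x hx h0
    have h1 : Ideal.Quotient.mk P x = 0 := by
      apply IsFractionRing.injective (R ⧸ P) (FractionRing (R ⧸ P))
      rw [map_zero]; exact h0
    have h2 := (hP x).1 (Ideal.Quotient.eq_zero_iff_mem.1 h1)
    obtain ⟨N, h3, h4⟩ := (h2.and (hx.filter_mono hU)).exists
    exact h4 h3

def Lac (A : Set ℕ) : Prop := ∃ C : ℕ, ∀ a ∈ A, ∀ b ∈ A, a < b → a ≤ C * (b - a)

def Col {F : Type*} [CommRing F] (u v : F) (A : Set ℕ) : Prop :=
  ∀ a ∈ A, ∀ b ∈ A, ∀ c ∈ A, (u ^ b - u ^ a) * (v ^ c - v ^ a) = (u ^ c - u ^ a) * (v ^ b - v ^ a)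

def ND {F : Type*} [CommRing F] (u v : F) : Prop :=
  u ≠ 0 ∧ v ≠ 0 ∧ ∀ d, 1 ≤ d → u ^ d ≠ 1 ∧ v ^ d ≠ 1 ∧ u ^ d ≠ v ^ d

theorem lac_of_real (A : Set ℕ) (h K1 K2 : ℝ) (hh : 0 < h)
    (H : ∀ a d : ℕ, a ∈ A → a + d ∈ A → 1 ≤ d → a * h ≤ K1 + K2 * d) : Lac A := by
  obtain ⟨C, hC⟩ := exists_nat_ge ((|K1| + |K2|) / h)
  refine ⟨C, fun a ha b hb hab => ?_⟩
  obtain ⟨d, rfl⟩ := Nat.exists_eq_add_of_le hab.le
  have hd : 1 ≤ d := by omega
  have h1 := H a d ha hb hd
  rw [Nat.add_sub_cancel_left]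
  have hd' : (1 : ℝ) ≤ d := by exact_mod_cast hd
  have h2 : |K1| + |K2| ≤ C * h := by rwa [div_le_iff₀ hh] at hC
  have h3 : K1 + K2 * d ≤ (|K1| + |K2|) * d := by
    have := le_abs_self K1
    have := le_abs_self K2
    have := abs_nonneg K1
    nlinarith
  have h4 : (a : ℝ) * h ≤ (C * d) * h := by nlinarith
  have h5 : (a : ℝ) ≤ C * d := le_of_mul_le_mul_right h4 hh
  exact_mod_cast h5

theorem lac_of_finite (A : Set ℕ) (hA : A.Finite) : Lac A := by
  obtain ⟨C, hC⟩ := hA.bddAbove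
  refine ⟨C, fun a ha b _ hab => ?_⟩
  have := hC ha
  have h1 : 1 ≤ b - a := by omega
  nlinarith

theorem three_of_infinite (A : Set ℕ) (hA : A.Infinite) :
    ∃ a1 ∈ A, ∃ a2 ∈ A, ∃ a3 ∈ A, a1 < a2 ∧ a2 < a3 := by
  obtain ⟨a1, h1⟩ := hA.nonempty
  obtain ⟨a2, h2, h12⟩ := hA.exists_gt a1
  obtain ⟨a3, h3, h23⟩ := hA.exists_gt a2
  exact ⟨a1, h1, a2, h2, a3, h3, h12, h23⟩

theorem height_pos (L : Type*) [Field L] [NumberField L] (u : L) (hu : u ≠ 0)
    (h : ∀ d, 1 ≤ d → u ^ d ≠ 1) : 0 < Height.logHeight₁ u := by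
  rcases (Height.zero_le_logHeight₁ u).lt_or_eq with h0 | h0
  · exact h0
  exfalso
  have hfin := NumberField.finite_setOfPred_logHeight₁_le L 0
  have hinj : Function.Injective (fun n : ℕ => u ^ n) := by
    intro i j hij
    by_contra hne
    wlog hlt : i < j generalizing i j
    · exact this hij.symm (Ne.symm hne) (by omega)
    obtain ⟨d, rfl⟩ := Nat.exists_eq_add_of_le hlt.le
    have h2 : u ^ i * u ^ d = u ^ i * 1 := by
      simp only at hij
      rw [← pow_add, ← hij, mul_one]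
    exact h d (by omega) (mul_left_cancel₀ (pow_ne_zero _ hu) h2)
  refine Set.infinite_of_injective_forall_mem hinj ?_ hfin
  intro n
  show Height.logHeight₁ (u ^ n) ≤ 0
  rw [Height.logHeight₁_pow, ← h0, mul_zero]

theorem key_id {F : Type*} [CommRing F] {u v : F} {A : Set ℕ} (h : Col u v A) {a1 a2 a d : ℕ}
    (h1 : a1 ∈ A) (h2 : a2 ∈ A) (ha : a ∈ A) (hb : a + d ∈ A) :
    (v ^ a2 - v ^ a1) * u ^ a * (u ^ d - v ^ d)
      = (u ^ a1 * v ^ a2 - u ^ a2 * v ^ a1) * (1 - v ^ d) := by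
  have e1 := h a1 h1 a2 h2 a ha
  have e2 := h a1 h1 a2 h2 (a + d) hb
  rw [pow_add, pow_add] at e2
  linear_combination v ^ d * e1 - e2

theorem pow_sub_ne {F : Type*} [Field F] {u : F} (hu : u ≠ 0) (h : ∀ d, 1 ≤ d → u ^ d ≠ 1)
    {a b : ℕ} (hab : a < b) : u ^ b - u ^ a ≠ 0 := by
  obtain ⟨d, rfl⟩ := Nat.exists_eq_add_of_le hab.le
  intro h0
  have h2 : u ^ a * u ^ d = u ^ a * 1 := by rw [← pow_add, mul_one]; exact sub_eq_zero.1 h0
  exact h d (by omega) (mul_left_cancel₀ (pow_ne_zero _ hu) h2)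

theorem delta_ne {F : Type*} [Field F] {u v : F} (h : ND u v) {a b : ℕ} (hab : a < b) :
    u ^ a * v ^ b - u ^ b * v ^ a ≠ 0 := by
  obtain ⟨d, rfl⟩ := Nat.exists_eq_add_of_le hab.le
  have : u ^ a * v ^ (a + d) - u ^ (a + d) * v ^ a = (u ^ a * v ^ a) * (v ^ d - u ^ d) := by ring
  rw [this]
  refine mul_ne_zero (mul_ne_zero (pow_ne_zero _ h.1) (pow_ne_zero _ h.2.1)) ?_
  exact sub_ne_zero.2 (h.2.2 d (by omega)).2.2.symm

open Height in
theorem lac_number (L : Type*) [Field L] [NumberField L] (u v : L) (A : Set ℕ) (hA : A.Infinite)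
    (hn : ND u v) (hc : Col u v A) : Lac A := by
  obtain ⟨a1, h1, a2, h2, a3, h3, h12, h23⟩ := three_of_infinite A hA
  have hu := height_pos L u hn.1 (fun d hd => (hn.2.2 d hd).1)
  set w : ℝ := totalWeight L * Real.log 2
  set c1 := v ^ a2 - v ^ a1 with hc1
  set c2 := u ^ a1 * v ^ a2 - u ^ a2 * v ^ a1 with hc2
  have hc1' : c1 ≠ 0 := pow_sub_ne hn.2.1 (fun d hd => (hn.2.2 d hd).2.1) h12
  refine lac_of_real A (logHeight₁ u) (2 * w + logHeight₁ c1 + logHeight₁ c2)
    (logHeight₁ u + 2 * logHeight₁ v) hu ?_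
  intro a d ha hb hd
  have e := key_id hc h1 h2 ha hb
  rw [← hc1, ← hc2] at e
  have hd' : u ^ d - v ^ d ≠ 0 := sub_ne_zero.2 (hn.2.2 d hd).2.2
  have e2 : u ^ a = (c2 * (1 - v ^ d)) * (c1⁻¹ * (u ^ d - v ^ d)⁻¹) := by
    rw [← e]; field_simp
  have i1 := logHeight₁_mul_le (c2 * (1 - v ^ d)) (c1⁻¹ * (u ^ d - v ^ d)⁻¹)
  have i2 := logHeight₁_mul_le c2 (1 - v ^ d)
  have i3 := logHeight₁_mul_le c1⁻¹ (u ^ d - v ^ d)⁻¹
  have i4 := logHeight₁_sub_le (1 : L) (v ^ d)
  have i5 := logHeight₁_sub_le (u ^ d) (v ^ d)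
  rw [← e2] at i1
  simp only [logHeight₁_inv, logHeight₁_pow, logHeight₁_one] at i1 i2 i3 i4 i5
  nlinarith

theorem alg_of_col {B F : Type*} [CommRing B] [Field F] [Algebra B F] (x : B) (v : F)
    (A : Set ℕ) (hA : A.Infinite) (hn : ND (algebraMap B F x) v)
    (hc : Col (algebraMap B F x) v A) : IsAlgebraic B v := by
  obtain ⟨a1, h1, a2, h2, a3, h3, h12, h23⟩ := three_of_infinite A hA
  refine ⟨C (x ^ a2 - x ^ a1) * (X ^ a3 - X ^ a1) - C (x ^ a3 - x ^ a1) * (X ^ a2 - X ^ a1), ?_, ?_⟩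
  · intro h0
    have h4 := congrArg (fun p => p.coeff a3) h0
    have n1 : a3 ≠ a1 := by omega
    have n2 : a3 ≠ a2 := by omega
    simp only [coeff_sub, coeff_C_mul, coeff_X_pow, if_true, if_neg n1, if_neg n2, sub_zero,
      mul_one, mul_zero, coeff_zero] at h4
    have h5 := congrArg (algebraMap B F) h4
    rw [map_sub, map_pow, map_pow, map_zero] at h5
    exact pow_sub_ne hn.1 (fun d hd => (hn.2.2 d hd).1) h12 h5
  · have e := hc a1 h1 a2 h2 a3 h3
    simp only [map_sub, map_mul, map_pow, aeval_C, aeval_X]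
    exact sub_eq_zero.2 e

theorem natDegree_det_le {k ι : Type*} [Field k] [Fintype ι] [DecidableEq ι]
    (M : Matrix ι ι k[X]) (D : ℕ) (h : ∀ i j, (M i j).natDegree ≤ D) :
    M.det.natDegree ≤ Fintype.card ι * D := by
  rw [Matrix.det_apply]
  apply natDegree_sum_le_of_forall_le
  intro σ _
  refine (natDegree_smul_le _ _).trans ?_
  refine (natDegree_prod_le _ _).trans ?_
  calc _ ≤ ∑ _i : ι, D := Finset.sum_le_sum fun i _ => h _ _
    _ = _ := by simp

theorem natDegree_matpow_le {k ι : Type*} [Field k] [Fintype ι] [DecidableEq ι]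
    (M : Matrix ι ι k[X]) (D : ℕ) (h : ∀ i j, (M i j).natDegree ≤ D) (n : ℕ) :
    ∀ i j, ((M ^ n) i j).natDegree ≤ n * D := by
  induction n with
  | zero =>
    intro i j
    rw [pow_zero, Matrix.one_apply]
    split_ifs <;> simp
  | succ n ih =>
    intro i j
    rw [pow_succ, Matrix.mul_apply]
    apply natDegree_sum_le_of_forall_le
    intro l _
    refine natDegree_mul_le.trans ?_
    have := ih i l
    have := h l j
    rw [add_mul, one_mul]
    omega

theorem lac_function (k F : Type*) [Field k] [Field F] [Algebra k[X] F]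
    (hinj : Function.Injective (algebraMap k[X] F)) (v : F) (A : Set ℕ) (hA : A.Infinite)
    (hn : ND (algebraMap k[X] F X) v) (hc : Col (algebraMap k[X] F X) v A) : Lac A := by
  classical
  obtain ⟨c, hc0, hw⟩ := (alg_of_col X v A hA hn hc).exists_integral_multiple
  obtain ⟨a1, h1, a2, h2, a3, h3, h12, h23⟩ := three_of_infinite A hA
  set u := algebraMap k[X] F X with hu
  set S := Algebra.adjoin k[X] {c • v} with hS
  have : Module.Finite k[X] S := Algebra.finite_adjoin_simple_of_isIntegral hw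
  have : FaithfulSMul k[X] F := (faithfulSMul_iff_algebraMap_injective _ _).2 hinj
  have : Module.IsTorsionFree k[X] S := inferInstance
  have : Module.Free k[X] S := inferInstance
  let b := Module.Free.chooseBasis k[X] S
  let w : S := ⟨c • v, Algebra.self_mem_adjoin_singleton _ _⟩
  let U : S := algebraMap k[X] S X
  let c' : S := algebraMap k[X] S c
  have hw' : (w : F) = algebraMap k[X] F c * v := Algebra.smul_def _ _
  have hU : (U : F) = u := rfl
  have hc' : (c' : F) = algebraMap k[X] F c := rfl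
  have hcF : algebraMap k[X] F c ≠ 0 := fun h0 => hc0 (hinj (by rw [h0, map_zero]))
  let M := Algebra.leftMulMatrix b w
  obtain ⟨D, hD⟩ : ∃ D : ℕ, (∀ i j, (M i j).natDegree ≤ D) ∧ c.natDegree ≤ D := by
    refine ⟨(Finset.univ.sup fun p : _ × _ => (M p.1 p.2).natDegree) + c.natDegree, ?_, by omega⟩
    intro i j
    have := Finset.le_sup (f := fun p : _ × _ => (M p.1 p.2).natDegree) (Finset.mem_univ (i, j))
    simp only at this
    omega
  obtain ⟨e, rfl⟩ := Nat.exists_eq_add_of_le h12.le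
  let P0 : S := U ^ a1 * w ^ (a1 + e) - U ^ (a1 + e) * w ^ a1 * c' ^ e
  have hP0 : (P0 : F) = algebraMap k[X] F c ^ (a1 + e) *
      (u ^ a1 * v ^ (a1 + e) - u ^ (a1 + e) * v ^ a1) := by
    simp only [P0]
    push_cast
    rw [hw', hU, hc']
    ring
  have hP0ne : P0 ≠ 0 := by
    intro h0
    have h4 : (P0 : F) = 0 := by rw [h0]; rfl
    rw [hP0] at h4
    exact mul_ne_zero (pow_ne_zero _ hcF) (delta_ne hn h12) h4
  set r := Fintype.card (Module.Free.ChooseBasisIndex k[X] S) with hr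
  have hrpos : 0 < r := Fintype.card_pos
  refine lac_of_real A 1 ((Algebra.norm k[X] P0).natDegree) (r * D) one_pos ?_
  intro a d ha hb hd
  have e0 := key_id hc h1 h2 ha hb
  let Q : S := (w ^ (a1 + e) - w ^ a1 * c' ^ e) * (c' ^ d * U ^ d - w ^ d)
  have e1 : Q * U ^ a = P0 * (c' ^ d - w ^ d) := by
    apply Subtype.ext
    simp only [Q]
    push_cast
    rw [hP0, hw', hU, hc']
    linear_combination (algebraMap k[X] F c) ^ (a1 + e + d) * e0
  have hne : c' ^ d - w ^ d ≠ 0 := by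
    intro h0
    have h4 : ((c' ^ d - w ^ d : S) : F) = 0 := by rw [h0]; rfl
    push_cast at h4
    rw [hw', hc', mul_pow] at h4
    have h5 : algebraMap k[X] F c ^ d * (1 - v ^ d) = 0 := by linear_combination h4
    exact mul_ne_zero (pow_ne_zero _ hcF) (sub_ne_zero.2 (hn.2.2 d hd).2.1.symm) h5
  have e2 := congrArg (Algebra.norm k[X]) e1
  rw [map_mul _ Q, map_mul _ P0, map_pow, Algebra.norm_algebraMap_of_basis b] at e2
  have n1 : Algebra.norm k[X] P0 ≠ 0 := Algebra.norm_ne_zero_iff.2 hP0ne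
  have n2 : Algebra.norm k[X] (c' ^ d - w ^ d) ≠ 0 := Algebra.norm_ne_zero_iff.2 hne
  have n3 : Algebra.norm k[X] Q ≠ 0 := by
    intro h0
    rw [h0, zero_mul] at e2
    exact mul_ne_zero n1 n2 e2.symm
  have e3 := congrArg natDegree e2
  rw [natDegree_mul n1 n2, natDegree_mul n3 (by simp), natDegree_pow, natDegree_pow, natDegree_X,
    mul_one, ← hr] at e3
  have i1 : (Algebra.norm k[X] (c' ^ d - w ^ d)).natDegree ≤ r * (d * D) := by
    rw [Algebra.norm_eq_matrix_det b]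
    apply natDegree_det_le
    intro i j
    have h6 : c' ^ d = algebraMap k[X] S (c ^ d) := by rw [map_pow]
    rw [map_sub, map_pow _ w, h6, AlgHom.commutes, Matrix.sub_apply]
    refine (natDegree_sub_le _ _).trans (max_le ?_ (natDegree_matpow_le M D hD.1 d i j))
    rw [Matrix.algebraMap_matrix_apply]
    split_ifs
    · simp only [Algebra.algebraMap_self, RingHom.id_apply]
      exact natDegree_pow_le.trans (Nat.mul_le_mul_left _ hD.2)
    · simp
  have i2 : a ≤ (Algebra.norm k[X] P0).natDegree + r * D * d := by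
    have : a ≤ a * r := Nat.le_mul_of_pos_right _ hrpos
    have h7 : r * (d * D) = r * D * d := by ring
    omega
  rw [mul_one]
  exact_mod_cast i2

theorem lac_field (F : Type) [Field F] (u v : F) (A : Set ℕ) (hn : ND u v) (hc : Col u v A) :
    Lac A := by
  classical
  rcases A.finite_or_infinite with hA | hA
  · exact lac_of_finite A hA
  have tr : ∀ (k : Type) [Field k] [Algebra k F], Transcendental k u → Lac A := by
    intro k _ _ ht
    let : Algebra k[X] F := (aeval u : k[X] →ₐ[k] F).toRingHom.toAlgebra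
    have hX : algebraMap k[X] F X = u := aeval_X u
    refine lac_function k F (transcendental_iff_injective.1 ht) v A hA ?_ ?_
    · rw [hX]; exact hn
    · rw [hX]; exact hc
  obtain ⟨p, hp⟩ := CharP.exists F
  rcases CharP.char_is_prime_or_zero F p with hpp | rfl
  · have : Fact p.Prime := ⟨hpp⟩
    let : Algebra (ZMod p) F := ZMod.algebra F p
    apply tr (ZMod p)
    intro halg
    let E := IntermediateField.adjoin (ZMod p) {u}
    have : FiniteDimensional (ZMod p) E := IntermediateField.adjoin.finiteDimensional halg.isIntegral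
    have : Finite E := Module.finite_of_finite (ZMod p)
    let : Fintype E := Fintype.ofFinite E
    let u' : E := ⟨u, IntermediateField.mem_adjoin_simple_self _ _⟩
    have hu' : u' ≠ 0 := fun h => hn.1 (congrArg Subtype.val h)
    have h1 := FiniteField.pow_card_sub_one_eq_one u' hu'
    have h2 : 1 < Fintype.card E := Fintype.one_lt_card
    exact (hn.2.2 (Fintype.card E - 1) (by omega)).1 (by simpa using congrArg Subtype.val h1)
  · have : CharZero F := CharP.charP_to_charZero F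
    by_cases halg : IsAlgebraic ℚ u
    · let E := IntermediateField.adjoin ℚ {u}
      have : FiniteDimensional ℚ E := IntermediateField.adjoin.finiteDimensional halg.isIntegral
      let u' : E := ⟨u, IntermediateField.mem_adjoin_simple_self _ _⟩
      have hv : IsAlgebraic ℚ v := (alg_of_col u' v A hA hn hc).restrictScalars ℚ
      let L := IntermediateField.adjoin ℚ {u, v}
      have : FiniteDimensional ℚ L := IntermediateField.finiteDimensional_adjoin_pair
        halg.isIntegral hv.isIntegral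
      have : NumberField L := ⟨⟩
      let u1 : L := ⟨u, IntermediateField.subset_adjoin _ _ (by simp)⟩
      let v1 : L := ⟨v, IntermediateField.subset_adjoin _ _ (by simp)⟩
      refine lac_number L u1 v1 A hA ⟨fun h => hn.1 (congrArg Subtype.val h),
        fun h => hn.2.1 (congrArg Subtype.val h), fun d hd => ⟨fun h => (hn.2.2 d hd).1 ?_,
          fun h => (hn.2.2 d hd).2.1 ?_, fun h => (hn.2.2 d hd).2.2 ?_⟩⟩ ?_
      · simpa using congrArg Subtype.val h
      · simpa using congrArg Subtype.val h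
      · simpa using congrArg Subtype.val h
      · intro a ha b hb c hc'
        apply Subtype.ext
        simpa using hc a ha b hb c hc'
    · exact tr ℚ halg

/-- ternary case, finite level -/
def Tern (N : ℕ) (A : Set ℕ) : Prop :=
  ∃ (F : Type) (_ : Field F) (u v : F), u ≠ 0 ∧ v ≠ 0 ∧
    (∀ d, 1 ≤ d → d ≤ N → u ^ d ≠ 1 ∧ v ^ d ≠ 1 ∧ u ^ d ≠ v ^ d) ∧ Col u v (A ∩ Set.Iic N)

theorem lac_tern (A : Set ℕ) (h : ∀ N, Tern N A) : Lac A := by
  choose K inst u v hu hv hd hc using h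
  let φ : ∀ N, MvPolynomial Bool ℤ →+* K N := fun N =>
    MvPolynomial.eval₂Hom (Int.castRingHom _) (fun b => cond b (u N) (v N))
  have hφu : ∀ N, φ N (MvPolynomial.X true) = u N := fun N => by simp [φ]
  have hφv : ∀ N, φ N (MvPolynomial.X false) = v N := fun N => by simp [φ]
  obtain ⟨F, _, ψ, h0, h1⟩ := compact (MvPolynomial Bool ℤ) K φ
  refine lac_field F (ψ (MvPolynomial.X true)) (ψ (MvPolynomial.X false)) A ⟨?_, ?_, ?_⟩ ?_
  · exact h1 _ (Eventually.of_forall fun N => by rw [hφu]; exact hu N)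
  · exact h1 _ (Eventually.of_forall fun N => by rw [hφv]; exact hv N)
  · intro d hd1
    refine ⟨?_, ?_, ?_⟩
    · have := h1 (MvPolynomial.X true ^ d - 1) (by
        filter_upwards [eventually_ge_atTop d] with N hN
        rw [map_sub, map_pow, map_one, hφu]
        exact sub_ne_zero.2 (hd N d hd1 hN).1)
      rw [map_sub, map_pow, map_one] at this
      exact sub_ne_zero.1 this
    · have := h1 (MvPolynomial.X false ^ d - 1) (by
        filter_upwards [eventually_ge_atTop d] with N hN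
        rw [map_sub, map_pow, map_one, hφv]
        exact sub_ne_zero.2 (hd N d hd1 hN).2.1)
      rw [map_sub, map_pow, map_one] at this
      exact sub_ne_zero.1 this
    · have := h1 (MvPolynomial.X true ^ d - MvPolynomial.X false ^ d) (by
        filter_upwards [eventually_ge_atTop d] with N hN
        rw [map_sub, map_pow, map_pow, hφu, hφv]
        exact sub_ne_zero.2 (hd N d hd1 hN).2.2)
      rw [map_sub, map_pow, map_pow] at this
      exact sub_ne_zero.1 this
  · intro a ha b hb c hc'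
    have := h0 ((MvPolynomial.X true ^ b - MvPolynomial.X true ^ a) *
        (MvPolynomial.X false ^ c - MvPolynomial.X false ^ a) -
        (MvPolynomial.X true ^ c - MvPolynomial.X true ^ a) *
        (MvPolynomial.X false ^ b - MvPolynomial.X false ^ a)) (by
      filter_upwards [eventually_ge_atTop a, eventually_ge_atTop b, eventually_ge_atTop c]
        with N h1 h2 h3
      simp only [map_sub, map_mul, map_pow, hφu, hφv]
      exact sub_eq_zero.2 (hc N a ⟨ha, h1⟩ b ⟨hb, h2⟩ c ⟨hc', h3⟩))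
    simp only [map_sub, map_mul, map_pow] at this
    exact sub_eq_zero.1 this

/-- the degenerate (double root) case -/
def Col' {F : Type*} [CommRing F] (u : F) (A : Set ℕ) : Prop :=
  ∀ a ∈ A, ∀ b ∈ A, ∀ c ∈ A, (u ^ b - u ^ a) * ((c : F) - a) = (u ^ c - u ^ a) * ((b : F) - a)

open Height in
theorem lac_number' (L : Type*) [Field L] [NumberField L] (u : L) (A : Set ℕ) (hA : A.Infinite)
    (hu0 : u ≠ 0) (hn : ∀ d, 1 ≤ d → u ^ d ≠ 1) (hc : Col' u A) : Lac A := by
  obtain ⟨a1, h1, a2, h2, a3, h3, h12, h23⟩ := three_of_infinite A hA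
  have hu := height_pos L u hu0 hn
  set w : ℝ := (totalWeight L : ℝ) with hw
  have hw0 : 0 ≤ w := by positivity
  set c1 : L := (a2 : L) - a1 with hc1
  set c2 := u ^ a2 - u ^ a1 with hc2
  have hc1' : c1 ≠ 0 := sub_ne_zero.2 (by exact_mod_cast h12.ne')
  refine lac_of_real A (logHeight₁ u) (w * Real.log 2 + logHeight₁ c1 + logHeight₁ c2)
    (logHeight₁ u + w) hu ?_
  intro a d ha hb hd
  have e1 := hc a1 h1 a2 h2 a ha
  have e2 := hc a1 h1 a2 h2 (a + d) hb
  rw [← hc1, ← hc2] at e1 e2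
  have e : c2 * d = u ^ a * (c1 * (u ^ d - 1)) := by
    push_cast at e2
    rw [pow_add] at e2
    linear_combination e2 - e1
  have hd' : u ^ d - 1 ≠ 0 := sub_ne_zero.2 (hn d hd)
  have e3 : u ^ a = (c2 * d) * (c1⁻¹ * (u ^ d - 1)⁻¹) := by
    rw [e]; field_simp
  have i1 := logHeight₁_mul_le (c2 * d) (c1⁻¹ * (u ^ d - 1)⁻¹)
  have i2 := logHeight₁_mul_le c2 (d : L)
  have i3 := logHeight₁_mul_le c1⁻¹ (u ^ d - 1)⁻¹
  have i4 := logHeight₁_sub_le (u ^ d) (1 : L)
  have i5 := logHeight₁_sum_le (Finset.range d) (fun _ => (1 : L))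
  have i6 : Real.log d ≤ d := (Real.log_le_sub_one_of_pos (by exact_mod_cast hd)).trans (by linarith)
  rw [← e3] at i1
  simp only [logHeight₁_inv, logHeight₁_pow, logHeight₁_one, Finset.sum_const, Finset.card_range,
    nsmul_eq_mul, mul_one, mul_zero, add_zero] at i1 i2 i3 i4 i5
  have i7 : w * Real.log d ≤ w * d := mul_le_mul_of_nonneg_left i6 hw0
  nlinarith

def Ruz (N : ℕ) (A : Set ℕ) : Prop :=
  ∃ (F : Type) (_ : Field F) (u : F), u ≠ 0 ∧
    (∀ d, 1 ≤ d → d ≤ N → u ^ d ≠ 1 ∧ (d : F) ≠ 0) ∧ Col' u (A ∩ Set.Iic N)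

theorem lac_ruz (A : Set ℕ) (h : ∀ N, Ruz N A) : Lac A := by
  rcases A.finite_or_infinite with hA | hA
  · exact lac_of_finite A hA
  choose K inst u hu hd hc using h
  let φ : ∀ N, ℤ[X] →+* K N := fun N => eval₂RingHom (Int.castRingHom _) (u N)
  have hφu : ∀ N, φ N X = u N := fun N => by simp [φ]
  obtain ⟨F, _, ψ, h0, h1⟩ := compact ℤ[X] K φ
  have hz : ψ X ≠ 0 := h1 _ (Eventually.of_forall fun N => by rw [hφu]; exact hu N)
  have hn : ∀ d, 1 ≤ d → ψ X ^ d ≠ 1 := by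
    intro d hd1
    have := h1 (X ^ d - 1) (by
      filter_upwards [eventually_ge_atTop d] with N hN
      rw [map_sub, map_pow, map_one, hφu]
      exact sub_ne_zero.2 (hd N d hd1 hN).1)
    rw [map_sub, map_pow, map_one] at this
    exact sub_ne_zero.1 this
  have hcol : Col' (ψ X) A := by
    intro a ha b hb c hc'
    have := h0 ((X ^ b - X ^ a) * ((c : ℤ[X]) - (a : ℤ[X])) -
        (X ^ c - X ^ a) * ((b : ℤ[X]) - (a : ℤ[X]))) (by
      filter_upwards [eventually_ge_atTop a, eventually_ge_atTop b, eventually_ge_atTop c]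
        with N h1 h2 h3
      simp only [map_sub, map_mul, map_pow, hφu, map_natCast]
      exact sub_eq_zero.2 (hc N a ⟨ha, h1⟩ b ⟨hb, h2⟩ c ⟨hc', h3⟩))
    simp only [map_sub, map_mul, map_pow, map_natCast] at this
    exact sub_eq_zero.1 this
  have : CharZero F := by
    refine charZero_of_inj_zero fun d hd0 => ?_
    by_contra hne
    have := h1 (d : ℤ[X]) (by
      filter_upwards [eventually_ge_atTop d] with N hN
      rw [map_natCast]
      exact (hd N d (by omega) hN).2)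
    rw [map_natCast] at this
    exact this hd0
  have halg : IsAlgebraic ℚ (ψ X) := by
    obtain ⟨a1, h1, a2, h2, a3, h3, h12, h23⟩ := three_of_infinite A hA
    refine ⟨C ((a2 : ℚ) - a1) * (X ^ a3 - X ^ a1) - C ((a3 : ℚ) - a1) * (X ^ a2 - X ^ a1), ?_, ?_⟩
    · intro h0
      have h4 := congrArg (fun p => p.coeff a3) h0
      have n1 : a3 ≠ a1 := by omega
      have n2 : a3 ≠ a2 := by omega
      simp only [coeff_sub, coeff_C_mul, coeff_X_pow, if_true, if_neg n1, if_neg n2, sub_zero,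
        mul_one, mul_zero, coeff_zero] at h4
      exact h12.ne' (by exact_mod_cast sub_eq_zero.1 h4)
    · have e := hcol a1 h1 a2 h2 a3 h3
      simp only [map_sub, map_mul, map_pow, aeval_X, map_natCast]
      linear_combination -e
  let L := IntermediateField.adjoin ℚ {ψ X}
  have : FiniteDimensional ℚ L := IntermediateField.adjoin.finiteDimensional halg.isIntegral
  have : NumberField L := ⟨⟩
  let u1 : L := ⟨ψ X, IntermediateField.mem_adjoin_simple_self _ _⟩
  refine lac_number' L u1 A hA (fun h => hz (congrArg Subtype.val h))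
    (fun d hd h => hn d hd ?_) ?_
  · simpa using congrArg Subtype.val h
  · intro a ha b hb c hc'
    apply Subtype.ext
    simpa using hcol a ha b hb c hc'

end Pool.Agent.MP_1609a8_nt

end

-- part MP_1609a8_nt.Comb
section

set_option autoImplicit false

namespace Pool.Agent.MP_1609a8_nt

open Finset

structure Nice (m : ℕ) (D : Set ℕ) : Prop where
  pos : 0 < m
  per : ∀ i j, i ≡ j [MOD m] → i ∈ D → j ∈ D
  sidon : ∀ a ∈ D, ∀ b ∈ D, ∀ c ∈ D, ∀ d ∈ D, a + b ≡ c + d [MOD m] →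
    a ≡ c [MOD m] ∨ a ≡ d [MOD m]
  rep : ∀ x, x ∉ D → ∃ P1 P2 : ℕ → Prop,
    (∀ s ∈ D, ∀ t ∈ D, P1 s → P1 t → s ≡ t [MOD m]) ∧
    (∀ s ∈ D, ∀ t ∈ D, P2 s → P2 t → s ≡ t [MOD m]) ∧
    ∀ s ∈ D, P1 s ∨ P2 s ∨ ∃ y ∈ D, ∃ z ∈ D, s + y ≡ x + z [MOD m]

theorem eq_of_modEq_Icc {m a b : ℕ} (ha : a ∈ Icc 1 m) (hb : b ∈ Icc 1 m)
    (h : a ≡ b [MOD m]) : a = b := by
  rw [mem_Icc] at ha hb
  have h1 : a - 1 + 1 ≡ b - 1 + 1 [MOD m] := by
    rwa [Nat.sub_add_cancel ha.1, Nat.sub_add_cancel hb.1]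
  have h2 := Nat.ModEq.eq_of_lt_of_lt (Nat.ModEq.add_right_cancel' 1 h1) (by omega) (by omega)
  omega

theorem exists_rep {m : ℕ} (hm : 0 < m) (y : ℕ) : ∃ z ∈ Icc 1 m, y ≡ z [MOD m] := by
  refine ⟨(y + (m - 1)) % m + 1, ?_, ?_⟩
  · have := Nat.mod_lt (y + (m - 1)) hm
    rw [mem_Icc]; omega
  · have h1 : (y + (m - 1)) % m + 1 ≡ y + (m - 1) + 1 [MOD m] :=
      (Nat.mod_modEq _ _).add_right 1
    have h2 : y + (m - 1) + 1 = y + m := by omega
    rw [h2] at h1
    exact (h1.trans (by simp [Nat.ModEq])).symm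

theorem le_sqrt_add_one {n : ℕ} {r : ℝ} (hr : 0 ≤ r) (h : (n : ℝ) * n - n ≤ r ^ 2) :
    (n : ℝ) ≤ r + 1 := by
  by_contra hc
  push Not at hc
  nlinarith

theorem card_short (P : Finset ℕ) (T : ℕ)
    (hs : ∀ a ∈ P, ∀ b ∈ P, ∀ c ∈ P, ∀ d ∈ P, a + b = c + d → a = c ∨ a = d)
    (hT : ∀ a ∈ P, ∀ b ∈ P, a < b + T) : (#P : ℝ) * #P - #P ≤ 2 * T := by
  have h := card_le_card_of_injOn (s := P.offDiag) (t := range (2 * T))
    (fun p => p.1 + T - p.2) ?_ ?_
  · rw [offDiag_card, card_range] at h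
    have h2 : #P ≤ #P * #P := Nat.le_mul_self _
    have h3 : ((#P * #P - #P : ℕ) : ℝ) ≤ ((2 * T : ℕ) : ℝ) := by exact_mod_cast h
    rw [Nat.cast_sub h2] at h3
    push_cast at h3
    exact h3
  · rintro ⟨a, b⟩ hp
    simp only [coe_offDiag, Set.mem_offDiag, mem_coe] at hp
    have := hT a hp.1 b hp.2.1
    have := hT a hp.1 a hp.1
    simp only [coe_range, Set.mem_Iio]
    omega
  · rintro ⟨a, b⟩ hp ⟨c, d⟩ hq h
    simp only [coe_offDiag, Set.mem_offDiag, mem_coe] at hp hq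
    have h1 := hT b hp.2.1 a hp.1
    have h2 := hT d hq.2.1 c hq.1
    simp only at h
    have h3 := hs a hp.1 d hq.2.1 c hq.1 b hp.2.1 (by omega)
    have h4 := hp.2.2
    ext <;> simp only <;> omega

theorem card_mod {m : ℕ} (hm : 0 < m) (P : Finset ℕ) (hP : P ⊆ Icc 1 m)
    (hs : ∀ a ∈ P, ∀ b ∈ P, ∀ c ∈ P, ∀ d ∈ P, a + b ≡ c + d [MOD m] → a = c ∨ a = d) :
    (#P : ℝ) * #P - #P ≤ m := by
  have h := card_le_card_of_injOn (s := P.offDiag) (t := range m)
    (fun p => (p.1 + m - p.2) % m) ?_ ?_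
  · rw [offDiag_card, card_range] at h
    have h2 : #P ≤ #P * #P := Nat.le_mul_self _
    have h3 : ((#P * #P - #P : ℕ) : ℝ) ≤ (m : ℝ) := by exact_mod_cast h
    rw [Nat.cast_sub h2] at h3
    push_cast at h3
    exact h3
  · rintro ⟨a, b⟩ _
    simp only [coe_range, Set.mem_Iio]
    exact Nat.mod_lt _ hm
  · rintro ⟨a, b⟩ hp ⟨c, d⟩ hq h
    simp only [coe_offDiag, Set.mem_offDiag, mem_coe] at hp hq
    have hb := mem_Icc.1 (hP hp.2.1)
    have hd := mem_Icc.1 (hP hq.2.1)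
    have h0 : a + m - b ≡ c + m - d [MOD m] := h
    have h1 := h0.add_right (b + d)
    have e1 : a + m - b + (b + d) = (a + d) + m := by omega
    have e2 : c + m - d + (b + d) = (c + b) + m := by omega
    rw [e1, e2] at h1
    have h2 := Nat.ModEq.add_right_cancel' m h1
    rcases hs a hp.1 d hq.2.1 c hq.1 b hp.2.1 h2 with h3 | h3
    · subst h3
      have h4 := Nat.ModEq.add_left_cancel' a h2
      rw [eq_of_modEq_Icc (hP hq.2.1) (hP hp.2.1) h4]
    · exact absurd h3 hp.2.2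

theorem sum_fib_le (s t : Finset ℕ) (f : ℕ → ℕ) (hf : ∀ a ∈ s, f a ∈ t) (k : ℕ)
    (hk : ∀ b, #{a ∈ s | f a = b} ≤ k) (g : ℕ → ℕ) :
    ∑ a ∈ s, g (f a) ≤ k * ∑ b ∈ t, g b := by
  rw [← sum_fiberwise_of_maps_to hf, mul_sum]
  refine sum_le_sum fun b _ => ?_
  rw [sum_congr rfl (g := fun _ => g b) (fun a ha => by rw [(mem_filter.1 ha).2]), sum_const,
    smul_eq_mul]
  exact Nat.mul_le_mul_right _ (hk b)

theorem card_fib_le (s R : Finset ℕ) (f : ℕ → ℕ) (k : ℕ)
    (hk : ∀ b, #{a ∈ s | f a = b} ≤ k) : #{a ∈ s | f a ∈ R} ≤ k * #R := by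
  have := sum_fib_le {a ∈ s | f a ∈ R} R f (fun a ha => (mem_filter.1 ha).2) k
    (fun b => (card_le_card (fun a ha => by
      simp only [mem_filter] at ha ⊢; exact ⟨ha.1.1, ha.2⟩)).trans (hk b)) (fun _ => 1)
  simpa using this

theorem sum_sub_le (s t : Finset ℕ) (hst : s ⊆ t) (g : ℕ → ℕ) (m : ℕ) (hg : ∀ a, g a ≤ m) :
    ∑ a ∈ t, g a ≤ ∑ a ∈ s, g a + (#t - #s) * m := by
  rw [← sum_sdiff hst, add_comm, ← card_sdiff_of_subset hst]
  have := sum_le_card_nsmul (t \ s) g m (fun a _ => hg a)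
  rw [smul_eq_mul] at this
  exact Nat.add_le_add_left this _

theorem comb_nat {m : ℕ} {D : Set ℕ} (hD : Nice m D) (A : Set ℕ)
    (hA : ∀ a ∈ A, ∀ b ∈ A, ∀ c ∈ A, ∀ d ∈ A, a + b = c + d → a = c ∨ a = d)
    (x : ℕ) (hxA : x ∈ A) (hxD : x ∉ D) (D0 R : Finset ℕ)
    (hD0 : ∀ a, a ∈ D0 ↔ a ∈ Icc 1 m ∧ a ∈ D) (hR : ∀ a ∈ D0, a ∉ A → a ∈ R) (T : ℕ) :
    T * #D0 ≤ 2 * (T * #{y ∈ D0 | m - y < T}) + (4 * #R + 2 * (x + 2)) * m := by
  classical
  obtain ⟨P1, P2, hP1, hP2, hrep⟩ := hD.rep x hxD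
  have hsid : ∀ a ∈ D0, ∀ b ∈ D0, ∀ c ∈ D0, ∀ d ∈ D0, a + b ≡ c + d [MOD m] → a = c ∨ a = d := by
    intro a ha b hb c hc d hd h
    rw [hD0] at ha hb hc hd
    rcases hD.sidon a ha.2 b hb.2 c hc.2 d hd.2 h with h1 | h1
    · exact Or.inl (eq_of_modEq_Icc ha.1 hc.1 h1)
    · exact Or.inr (eq_of_modEq_Icc ha.1 hd.1 h1)
  set D1 := {s ∈ D0 | x < s ∧ ¬ P1 s ∧ ¬ P2 s} with hD1
  have hsub : D1 ⊆ D0 := filter_subset _ _
  have hB : #D0 - #D1 ≤ x + 2 := by
    have h1 : D0 ⊆ D1 ∪ (Icc 1 x ∪ ({s ∈ D0 | P1 s} ∪ {s ∈ D0 | P2 s})) := by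
      intro s hs
      have h2 := mem_Icc.1 ((hD0 s).1 hs).1
      simp only [hD1, mem_union, mem_filter, mem_Icc]
      by_cases c1 : x < s
      · tauto
      · exact Or.inr (Or.inl ⟨h2.1, by omega⟩)
    have h2 : #{s ∈ D0 | P1 s} ≤ 1 := card_le_one.2 fun s hs t ht => by
      rw [mem_filter, hD0] at hs ht
      exact eq_of_modEq_Icc hs.1.1 ht.1.1 (hP1 s hs.1.2 t ht.1.2 hs.2 ht.2)
    have h3 : #{s ∈ D0 | P2 s} ≤ 1 := card_le_one.2 fun s hs t ht => by
      rw [mem_filter, hD0] at hs ht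
      exact eq_of_modEq_Icc hs.1.1 ht.1.1 (hP2 s hs.1.2 t ht.1.2 hs.2 ht.2)
    have h4 := card_le_card h1
    have h5 := card_union_le D1 (Icc 1 x ∪ ({s ∈ D0 | P1 s} ∪ {s ∈ D0 | P2 s}))
    have h6 := card_union_le (Icc 1 x) ({s ∈ D0 | P1 s} ∪ {s ∈ D0 | P2 s})
    have h7 := card_union_le {s ∈ D0 | P1 s} {s ∈ D0 | P2 s}
    rw [Nat.card_Icc] at h6
    omega
  have hex : ∀ s, ∃ y z, s ∈ D1 → y ∈ D0 ∧ z ∈ D0 ∧ s + y ≡ x + z [MOD m] := by
    intro s
    by_cases hs : s ∈ D1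
    · have hs' := mem_filter.1 hs
      rcases hrep s ((hD0 s).1 hs'.1).2 with h | h | ⟨y, hy, z, hz, h⟩
      · exact absurd h hs'.2.2.1
      · exact absurd h hs'.2.2.2
      · obtain ⟨y', hy1, hy2⟩ := exists_rep hD.pos y
        obtain ⟨z', hz1, hz2⟩ := exists_rep hD.pos z
        refine ⟨y', z', fun _ => ⟨(hD0 _).2 ⟨hy1, hD.per _ _ hy2 hy⟩,
          (hD0 _).2 ⟨hz1, hD.per _ _ hz2 hz⟩, ?_⟩⟩
        exact ((hy2.symm.add_left s).trans h).trans (hz2.add_left x)
    · exact ⟨0, 0, fun h => absurd h hs⟩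
  choose σ τ hστ using hex
  have hne : ∀ s ∈ D1, s ≠ τ s := by
    intro s hs h
    obtain ⟨h1, _, h3⟩ := hστ s hs
    rw [← h, add_comm x s] at h3
    exact hxD (hD.per _ _ (Nat.ModEq.add_left_cancel' s h3) ((hD0 _).1 h1).2)
  have hσinj : Set.InjOn σ D1 := by
    intro s hs t ht h
    obtain ⟨h1, h2, h3⟩ := hστ s hs
    obtain ⟨h4, h5, h6⟩ := hστ t ht
    rw [← h] at h6
    have h7 : s + τ t ≡ t + τ s [MOD m] := by
      have h8 := h3.add h6.symm
      have e1 : s + σ s + (x + τ t) = (s + τ t) + (σ s + x) := by ring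
      have e2 : x + τ s + (t + σ s) = (t + τ s) + (σ s + x) := by ring
      rw [e1, e2] at h8
      exact Nat.ModEq.add_right_cancel' _ h8
    rcases hsid s (hsub hs) _ h5 t (hsub ht) _ h2 h7 with h8 | h8
    · exact h8
    · exact absurd h8 (hne s hs)
  have hσ1 : ∀ b, #{a ∈ D1 | σ a = b} ≤ 1 := fun b => card_le_one.2 fun s hs t ht => by
    rw [mem_filter] at hs ht
    exact hσinj hs.1 ht.1 (hs.2.trans ht.2.symm)
  have hτ2 : ∀ b, #{a ∈ D1 | τ a = b} ≤ 2 := by
    intro b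
    rcases ({a ∈ D1 | τ a = b} : Finset ℕ).eq_empty_or_nonempty with h | ⟨s, hs⟩
    · rw [h]; simp
    · refine (card_le_card (t := {s, σ s}) ?_).trans card_le_two
      intro t ht
      rw [mem_filter] at hs ht
      obtain ⟨h1, h2, h3⟩ := hστ s hs.1
      obtain ⟨h4, h5, h6⟩ := hστ t ht.1
      rw [hs.2] at h3
      rw [ht.2] at h6
      have := hsid t (hsub ht.1) _ h4 s (hsub hs.1) _ h1 (h6.trans h3.symm)
      simpa using this
  set NW := {s ∈ D1 | s + σ s = x + τ s} with hNW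
  have hNWc : #NW ≤ 4 * #R := by
    have h1 : NW ⊆ R ∪ ({a ∈ D1 | σ a ∈ R} ∪ {a ∈ D1 | τ a ∈ R}) := by
      intro s hs
      have hs' := mem_filter.1 hs
      obtain ⟨h1, h2, h3⟩ := hστ s hs'.1
      simp only [mem_union, mem_filter (s := D1)]
      by_contra hc
      push Not at hc
      have a1 : s ∈ A := by by_contra h; exact hc.1 (hR s (hsub hs'.1) h)
      have a2 : σ s ∈ A := by by_contra h; exact hc.2.1 hs'.1 (hR _ h1 h)
      have a3 : τ s ∈ A := by by_contra h; exact hc.2.2 hs'.1 (hR _ h2 h)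
      rcases hA s a1 _ a2 x hxA _ a3 hs'.2 with h | h
      · have := (mem_filter.1 hs'.1).2.1
        omega
      · exact hne s hs'.1 h
    have h2 := card_le_card h1
    have h3 := card_union_le R ({a ∈ D1 | σ a ∈ R} ∪ {a ∈ D1 | τ a ∈ R})
    have h4 := card_union_le {a ∈ D1 | σ a ∈ R} {a ∈ D1 | τ a ∈ R}
    have h5 := card_fib_le D1 R σ 1 hσ1
    have h6 := card_fib_le D1 R τ 2 hτ2
    omega
  have hpt : ∀ s ∈ D1, (m - s) + (m - σ s) ≤ T + (m - τ s - T) +
      (if s + σ s = x + τ s then m else 0) := by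
    intro s hs
    obtain ⟨h1, h2, h3⟩ := hστ s hs
    have i1 := mem_Icc.1 ((hD0 _).1 (hsub hs)).1
    have i2 := mem_Icc.1 ((hD0 _).1 h1).1
    have i3 := mem_Icc.1 ((hD0 _).1 h2).1
    have i4 := (mem_filter.1 hs).2.1
    split_ifs with h
    · omega
    · have : x + τ s + m ≤ s + σ s := by
        rcases Nat.lt_or_gt_of_ne h with h4 | h4
        · have := Nat.le_of_dvd (by omega) ((Nat.modEq_iff_dvd' h4.le).1 h3)
          omega
        · have := Nat.le_of_dvd (by omega) ((Nat.modEq_iff_dvd' h4.le).1 h3.symm)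
          omega
      omega
  have hsum := sum_le_sum hpt
  rw [sum_add_distrib, sum_add_distrib, sum_add_distrib, sum_const, smul_eq_mul, ← sum_filter,
    sum_const, smul_eq_mul, ← hNW] at hsum
  have s1 := sum_sub_le D1 D0 hsub (fun a => m - a) m (fun a => Nat.sub_le _ _)
  have s2 := sum_sub_le (D1.image σ) D0 (fun a ha => by
    obtain ⟨s, hs, rfl⟩ := mem_image.1 ha
    exact (hστ s hs).1) (fun a => m - a) m (fun a => Nat.sub_le _ _)
  rw [sum_image (fun a ha b hb h => hσinj ha hb h), card_image_of_injOn hσinj] at s2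
  have s3 := sum_fib_le D1 D0 τ (fun a ha => (hστ a ha).2.1) 2 hτ2 (fun y => m - y - T)
  have s4 : ∑ y ∈ D0, (m - y - T) + #D0 * T ≤ ∑ y ∈ D0, (m - y) + #{y ∈ D0 | m - y < T} * T := by
    have : ∀ y ∈ D0, (m - y - T) + T ≤ (m - y) + (if m - y < T then T else 0) := by
      intro y _
      split_ifs <;> omega
    have h := sum_le_sum this
    rwa [sum_add_distrib, sum_add_distrib, sum_const, smul_eq_mul, ← sum_filter, sum_const,
      smul_eq_mul] at h
  have s5 : #D1 * T ≤ #D0 * T := Nat.mul_le_mul_right _ (card_le_card hsub)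
  have s6 : (#D0 - #D1) * m ≤ (x + 2) * m := Nat.mul_le_mul_right _ hB
  have s7 : #NW * m ≤ 4 * #R * m := Nat.mul_le_mul_right _ hNWc
  nlinarith

theorem comb {m : ℕ} {D : Set ℕ} (hD : Nice m D) (A : Set ℕ)
    (hA : ∀ a ∈ A, ∀ b ∈ A, ∀ c ∈ A, ∀ d ∈ A, a + b = c + d → a = c ∨ a = d)
    (x : ℕ) (hxA : x ∈ A) (hxD : x ∉ D) (hm : 1000 * ((x : ℝ) + 5) ≤ √m) :
    ((A ∩ D ∩ Set.Icc 1 m).ncard : ℝ) < 0.996 * √m := by
  classical
  set D0 := {a ∈ Icc 1 m | a ∈ D} with hD0
  set S := {a ∈ D0 | a ∈ A} with hS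
  set R := {a ∈ D0 | a ∉ A} with hR
  have hSe : A ∩ D ∩ Set.Icc 1 m = ↑S := by
    ext a
    simp only [hS, hD0, coe_filter, mem_filter, mem_Icc, Set.mem_inter_iff, Set.mem_Icc,
      Set.mem_ofPred_eq]
    tauto
  rw [hSe, Set.ncard_coe_finset]
  by_contra hc
  push Not at hc
  have hcard : #S + #R = #D0 := card_filter_add_card_filter_not _
  have h1 := comb_nat hD A hA x hxA hxD D0 R (fun a => mem_filter)
    (fun a ha h => mem_filter.2 ⟨ha, h⟩) (m / 18)
  have hsid : ∀ a ∈ D0, ∀ b ∈ D0, ∀ c ∈ D0, ∀ d ∈ D0, a + b ≡ c + d [MOD m] → a = c ∨ a = d := by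
    intro a ha b hb c hc d hd h
    rw [mem_filter] at ha hb hc hd
    rcases hD.sidon a ha.2 b hb.2 c hc.2 d hd.2 h with h1 | h1
    · exact Or.inl (eq_of_modEq_Icc ha.1 hc.1 h1)
    · exact Or.inr (eq_of_modEq_Icc ha.1 hd.1 h1)
  have h2 := card_mod hD.pos D0 (filter_subset _ _) hsid
  have h3 := card_short {y ∈ D0 | m - y < m / 18} (m / 18)
    (fun a ha b hb c hc d hd h => hsid a (mem_filter.1 ha).1 b (mem_filter.1 hb).1
      c (mem_filter.1 hc).1 d (mem_filter.1 hd).1 (by rw [h]))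
    (fun a ha b hb => by
      have i1 := mem_Icc.1 (mem_filter.1 (mem_filter.1 ha).1).1
      have i2 := (mem_filter.1 hb).2
      omega)
  set r := √(m : ℝ) with hr
  have hr0 : 0 ≤ r := Real.sqrt_nonneg _
  have hrm : (m : ℝ) = r ^ 2 := (Real.sq_sqrt (Nat.cast_nonneg m)).symm
  set T := m / 18 with hT
  have hT1 : (18 : ℝ) * T ≤ m := by exact_mod_cast (by omega : 18 * T ≤ m)
  have hT2 : (m : ℝ) ≤ 18 * T + 18 := by exact_mod_cast (by omega : m ≤ 18 * T + 18)
  have h4 : (#D0 : ℝ) ≤ r + 1 := le_sqrt_add_one hr0 (by rw [← hrm]; exact h2)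
  have h5 : (#{y ∈ D0 | m - y < T} : ℝ) ≤ r / 3 + 1 :=
    le_sqrt_add_one (by positivity) (by nlinarith)
  have h6 : (T : ℝ) * #D0 ≤ 2 * (T * #{y ∈ D0 | m - y < T}) + (4 * #R + 2 * (x + 2)) * m := by
    exact_mod_cast h1
  have h7 : (#S : ℝ) + #R = #D0 := by exact_mod_cast hcard
  have hx0 : (0 : ℝ) ≤ x := Nat.cast_nonneg _
  have hR0 : (0 : ℝ) ≤ #R := Nat.cast_nonneg _
  have hT0 : (0 : ℝ) ≤ T := Nat.cast_nonneg _
  have i1 : (T : ℝ) * (0.329 * r - 2) ≤ T * (#D0 - 2 * #{y ∈ D0 | m - y < T}) :=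
    mul_le_mul_of_nonneg_left (by linarith) hT0
  have i2 : (r ^ 2 / 18 - 1) * (0.329 * r - 2) ≤ T * (0.329 * r - 2) :=
    mul_le_mul_of_nonneg_right (by linarith) (by linarith)
  have i3 : (4 * (#R : ℝ) + 2 * (x + 2)) * m ≤ (0.016 * r + 2 * x + 8) * r ^ 2 := by
    rw [hrm]
    exact mul_le_mul_of_nonneg_right (by linarith) (by positivity)
  have i4 : (r ^ 2 / 18 - 1) * (0.329 * r - 2) ≤ (0.016 * r + 2 * x + 8) * r ^ 2 := by linarith
  have i5 : 1000 * ((x : ℝ) + 5) * r ^ 2 ≤ r * r ^ 2 :=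
    mul_le_mul_of_nonneg_right hm (by positivity)
  have i6 : 5000 * r ≤ r ^ 2 := by nlinarith
  nlinarith

end Pool.Agent.MP_1609a8_nt

end

-- part MP_1609a8_nt.Fam
section

set_option autoImplicit false

namespace Pool.Agent.MP_1609a8_nt

open Polynomial

theorem prim_pow_eq {L : Type*} [Field L] {θ : L} {n : ℕ} (h : IsPrimitiveRoot θ n) (hn : n ≠ 0)
    (i j : ℕ) : θ ^ i = θ ^ j ↔ i ≡ j [MOD n] := by
  wlog hij : i ≤ j generalizing i j
  · rw [eq_comm, this j i (by omega)]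
    exact ⟨Nat.ModEq.symm, Nat.ModEq.symm⟩
  obtain ⟨d, rfl⟩ := Nat.exists_eq_add_of_le hij
  rw [Nat.modEq_iff_dvd' hij, Nat.add_sub_cancel_left, ← h.pow_eq_one_iff_dvd, pow_add]
  have h0 : θ ^ i ≠ 0 := pow_ne_zero _ (h.ne_zero hn)
  constructor
  · intro h1
    exact (mul_left_cancel₀ h0 (by rw [mul_one]; exact h1)).symm
  · intro h1
    rw [h1, mul_one]

theorem prim_surj {L : Type*} [Field L] [Fintype L] {θ : L}
    (h : IsPrimitiveRoot θ (Fintype.card L - 1)) (x : L) (hx : x ≠ 0) : ∃ i, θ ^ i = x := by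
  have h1 : 1 < Fintype.card L := Fintype.one_lt_card
  have : NeZero (Fintype.card L - 1) := ⟨by omega⟩
  obtain ⟨i, _, hi⟩ := h.eq_pow_of_pow_eq_one (FiniteField.pow_card_sub_one_eq_one x hx)
  exact ⟨i, hi⟩

theorem dep3 {K L : Type*} [Field K] [AddCommGroup L] [Module K L] [Module.Finite K L]
    (W : Submodule K L) (hW : Module.finrank K W ≤ 2) {x y z : L} (hx : x ∈ W) (hy : y ∈ W)
    (hz : z ∈ W) : ∃ k1 k2 k3 : K, (k1 ≠ 0 ∨ k2 ≠ 0 ∨ k3 ≠ 0) ∧ k1 • x + k2 • y + k3 • z = 0 := by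
  have h : ¬ LinearIndependent K (![⟨x, hx⟩, ⟨y, hy⟩, ⟨z, hz⟩] : Fin 3 → W) := by
    intro h
    have := h.fintype_card_le_finrank
    simp at this
    omega
  obtain ⟨g, hg, i, hi⟩ := Fintype.not_linearIndependent_iff.1 h
  refine ⟨g 0, g 1, g 2, ?_, ?_⟩
  · fin_cases i
    · exact Or.inl hi
    · exact Or.inr (Or.inl hi)
    · exact Or.inr (Or.inr hi)
  · have := congrArg Subtype.val hg
    simpa [Fin.sum_univ_three] using this

theorem dep2 {K L : Type*} [Field K] [AddCommGroup L] [Module K L] [Module.Finite K L]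
    (W : Submodule K L) (hW : Module.finrank K W ≤ 1) {x y : L} (hx : x ∈ W) (hy : y ∈ W)
    (hx0 : x ≠ 0) : ∃ c : K, y = c • x := by
  have h : ¬ LinearIndependent K (![⟨x, hx⟩, ⟨y, hy⟩] : Fin 2 → W) := by
    intro h
    have := h.fintype_card_le_finrank
    simp at this
    omega
  obtain ⟨g, hg, i, hi⟩ := Fintype.not_linearIndependent_iff.1 h
  have h1 : g 0 • x + g 1 • y = 0 := by
    have := congrArg Subtype.val hg
    simpa [Fin.sum_univ_two] using this
  have h2 : g 1 ≠ 0 := by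
    intro h0
    rw [h0, zero_smul, add_zero, smul_eq_zero] at h1
    fin_cases i
    · exact hi (h1.resolve_right hx0)
    · exact hi h0
  refine ⟨-(g 1)⁻¹ * g 0, ?_⟩
  have h3 : g 1 • y = -(g 0 • x) := eq_neg_of_add_eq_zero_right h1
  rw [mul_smul, neg_smul, ← smul_neg, ← h3, smul_smul, inv_mul_cancel₀ h2, one_smul]

theorem col_of_dep {F : Type*} [Field F] {k1 k2 k3 a1 a2 a3 b1 b2 b3 : F}
    (hk : k1 ≠ 0 ∨ k2 ≠ 0 ∨ k3 ≠ 0) (h0 : k1 + k2 + k3 = 0)
    (h1 : k1 * a1 + k2 * a2 + k3 * a3 = 0) (h2 : k1 * b1 + k2 * b2 + k3 * b3 = 0) :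
    (a2 - a1) * (b3 - b1) = (a3 - a1) * (b2 - b1) := by
  have e1 : k2 * (a2 - a1) + k3 * (a3 - a1) = 0 := by linear_combination h1 - a1 * h0
  have e2 : k2 * (b2 - b1) + k3 * (b3 - b1) = 0 := by linear_combination h2 - b1 * h0
  by_cases c2 : k2 = 0
  · by_cases c3 : k3 = 0
    · rw [c2, c3, add_zero, add_zero] at h0
      tauto
    · apply mul_left_cancel₀ c3
      linear_combination (a2 - a1) * e2 - (b2 - b1) * e1
  · apply mul_left_cancel₀ c2
    linear_combination (b3 - b1) * e1 - (a3 - a1) * e2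

theorem ker_lt {K L : Type*} [Field K] [AddCommGroup L] [Module K L] [Module.Finite K L]
    (φ : L →ₗ[K] K) (h : φ ≠ 0) : Module.finrank K (LinearMap.ker φ) < Module.finrank K L :=
  Submodule.finrank_lt (by rwa [Ne, LinearMap.ker_eq_top])

theorem singer_all {m : ℕ} {D : Set ℕ} (h : IsSinger m D) :
    Nice m D ∧ ∀ (N : ℕ) (A : Set ℕ), N < m → A ∩ Set.Iic N ⊆ D → Tern N A := by
  obtain ⟨K, L, _, _, _, _, θ, φ, hr, hθ, hφ, hm, rfl⟩ := h
  have : Module.Finite K L := Module.finite_of_finrank_pos (by omega)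
  have : Finite L := Module.finite_of_finite K
  let : Fintype L := Fintype.ofFinite L
  have hcard : Fintype.card L = Fintype.card K ^ 3 := by
    rw [Module.card_eq_pow_finrank (K := K), hr]
  have hq : 1 < Fintype.card K := Fintype.one_lt_card
  obtain ⟨e, he⟩ : ∃ e, Fintype.card K = e + 1 := ⟨Fintype.card K - 1, by omega⟩
  have he0 : 0 < e := by omega
  have hm0 : 0 < m := by omega
  have hn : Fintype.card K ^ 3 - 1 = m * e := by
    rw [hm, he]
    apply Nat.sub_eq_of_eq_add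
    ring
  have hsurj := prim_surj (θ := θ) (by rw [hcard]; exact hθ)
  rw [hn] at hθ
  have hn0 : m * e ≠ 0 := by positivity
  have hθ0 : θ ≠ 0 := hθ.ne_zero hn0
  have hK : Module.finrank K (LinearMap.ker φ) ≤ 2 := by have := ker_lt φ hφ; omega
  have hN : algebraMap K L (Algebra.norm K θ) = θ ^ m := by
    rw [FiniteField.algebraMap_norm_eq_pow, Nat.card_eq_fintype_card, Nat.card_eq_fintype_card,
      hcard, hn, he, Nat.add_sub_cancel, Nat.mul_div_cancel _ he0]
  have hN0 : Algebra.norm K θ ≠ 0 := Algebra.norm_ne_zero_iff.2 hθ0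
  have S0 : ∀ i, θ ^ i = (Algebra.norm K θ) ^ (i / m) • θ ^ (i % m) := by
    intro i
    rw [Algebra.smul_def, map_pow, hN, ← pow_mul, ← pow_add, Nat.div_add_mod]
  have S1 : ∀ i j, i ≡ j [MOD m] → ∃ k : K, k ≠ 0 ∧ θ ^ i = k • θ ^ j := by
    intro i j hij
    refine ⟨(Algebra.norm K θ) ^ (i / m) * ((Algebra.norm K θ) ^ (j / m))⁻¹, by positivity, ?_⟩
    rw [S0 i, S0 j, smul_smul, mul_assoc, inv_mul_cancel₀ (pow_ne_zero _ hN0), mul_one, hij]
  have S2 : ∀ i j (c : K), θ ^ i = c • θ ^ j → i ≡ j [MOD m] := by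
    intro i j c hc
    have hc0 : c ≠ 0 := by
      rintro rfl
      rw [zero_smul] at hc
      exact pow_ne_zero _ hθ0 hc
    have h1 : c ^ e = 1 := by
      have := FiniteField.pow_card_sub_one_eq_one c hc0
      rwa [he, Nat.add_sub_cancel] at this
    have h2 : θ ^ (i * e) = θ ^ (j * e) := by
      rw [pow_mul, pow_mul, hc, _root_.smul_pow, h1, one_smul]
    exact Nat.ModEq.mul_right_cancel' he0.ne' ((prim_pow_eq hθ hn0 _ _).1 h2)
  refine ⟨⟨hm0, ?_, ?_, ?_⟩, ?_⟩
  · intro i j hij hi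
    obtain ⟨k, _, hk⟩ := S1 j i hij.symm
    have hi' : φ (θ ^ i) = 0 := hi
    show φ (θ ^ j) = 0
    rw [hk, map_smul, hi', smul_zero]
  · intro a ha b hb c hc d hd habcd
    have ha' : φ (θ ^ a) = 0 := ha
    have hb' : φ (θ ^ b) = 0 := hb
    have hc' : φ (θ ^ c) = 0 := hc
    have hd' : φ (θ ^ d) = 0 := hd
    obtain ⟨k, hk0, hk⟩ := S1 _ _ habcd
    rw [pow_add, pow_add] at hk
    by_contra hcon
    push Not at hcon
    have z0 : θ ^ c ≠ 0 := pow_ne_zero _ hθ0
    set l := θ ^ a / θ ^ c with hl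
    have l1 : l * θ ^ c = θ ^ a := div_mul_cancel₀ _ z0
    have l2 : l * θ ^ b = k • θ ^ d := by
      apply mul_left_cancel₀ z0
      rw [← mul_assoc, mul_comm _ l, l1, hk, mul_smul_comm]
    have l3 : φ (l * θ ^ a) = 0 := by
      obtain ⟨k1, k2, k3, hk123, e1⟩ := dep3 (LinearMap.ker φ) hK hc' hb' ha'
      have e2 : k1 • θ ^ a + k2 • k • θ ^ d + k3 • (l * θ ^ a) = 0 := by
        have := congrArg (l * ·) e1
        simp only [mul_add, mul_smul_comm, l1, l2, mul_zero] at this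
        exact this
      by_cases c3 : k3 = 0
      · exfalso
        rw [c3, zero_smul, add_zero] at e2
        have c1 : k1 ≠ 0 := by
          rintro rfl
          rw [zero_smul, zero_add, smul_eq_zero, smul_eq_zero] at e2
          have := pow_ne_zero d hθ0
          tauto
        refine hcon.2 (S2 a d (-(k1⁻¹ * (k2 * k))) ?_)
        have h3 : k1 • θ ^ a = -(k2 • k • θ ^ d) := eq_neg_of_add_eq_zero_left e2
        rw [neg_smul, mul_smul, mul_smul, ← smul_neg, ← h3, smul_smul, inv_mul_cancel₀ c1, one_smul]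
      · have := congrArg φ e2
        simp only [map_add, map_smul, ha', hd', zero_add, map_zero, smul_eq_mul,
          mul_zero] at this
        exact (mul_eq_zero.1 this).resolve_left c3
    obtain ⟨k1, k2, k3, hk123, e1⟩ := dep3 (LinearMap.ker φ) hK hc' ha' l3
    have e2 : aeval l (C k3 * X ^ 2 + C k2 * X + C k1 : K[X]) = 0 := by
      apply mul_left_cancel₀ z0
      simp only [map_add, map_mul, map_pow, aeval_C, aeval_X, mul_zero]
      simp only [Algebra.smul_def] at e1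
      rw [← l1] at e1
      linear_combination e1
    have p0 : (C k3 * X ^ 2 + C k2 * X + C k1 : K[X]) ≠ 0 := by
      intro h0
      have c0 := congrArg (fun p => p.coeff 0) h0
      have c1 := congrArg (fun p => p.coeff 1) h0
      have c2 := congrArg (fun p => p.coeff 2) h0
      simp [coeff_X, coeff_C] at c0 c1 c2
      tauto
    have hint : IsIntegral K l := Algebra.IsIntegral.isIntegral l
    have d1 : (minpoly K l).natDegree ≤ 2 :=
      (natDegree_le_of_dvd (minpoly.dvd K l e2) p0).trans natDegree_quadratic_le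
    have d2 := minpoly.degree_dvd hint
    rw [hr] at d2
    have d3 : (minpoly K l).natDegree = 1 := by
      rcases (Nat.dvd_prime Nat.prime_three).1 d2 with h | h <;> omega
    obtain ⟨t, ht⟩ := minpoly.natDegree_eq_one_iff.1 d3
    exact hcon.1 (S2 a c t (by rw [Algebra.smul_def, ht, l1]))
  · intro x _
    refine ⟨fun _ => False, fun _ => False, by simp, by simp, fun s hs => Or.inr (Or.inr ?_)⟩
    have z0 : θ ^ x ≠ 0 := pow_ne_zero _ hθ0
    have hker := LinearMap.ker_ne_bot_of_finrank_lt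
      (f := φ.prod (φ.comp (LinearMap.mulLeft K (θ ^ s / θ ^ x)))) (by simp [hr])
    obtain ⟨t, ht, ht0⟩ := (Submodule.ne_bot_iff _).1 hker
    replace ht : φ t = 0 ∧ φ (θ ^ s / θ ^ x * t) = 0 :=
      ⟨congrArg Prod.fst (LinearMap.mem_ker.1 ht), congrArg Prod.snd (LinearMap.mem_ker.1 ht)⟩
    obtain ⟨y, hy⟩ := hsurj t ht0
    obtain ⟨z, hz⟩ := hsurj (θ ^ s / θ ^ x * t) (mul_ne_zero (div_ne_zero (pow_ne_zero _ hθ0) z0) ht0)
    refine ⟨y, ?_, z, ?_, S2 _ _ 1 ?_⟩
    · show φ (θ ^ y) = 0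
      rw [hy]; exact ht.1
    · show φ (θ ^ z) = 0
      rw [hz]; exact ht.2
    · rw [one_smul, pow_add, pow_add, hy, hz]
      field_simp
  · intro N A hN' hA
    refine ⟨L, inferInstance, θ ^ e, θ ^ ((e + 2) * e), pow_ne_zero _ hθ0, pow_ne_zero _ hθ0, ?_, ?_⟩
    · intro d hd1 hd2
      have hnd : ¬ m ∣ d := fun h => by have := Nat.le_of_dvd hd1 h; omega
      have co1 : Nat.Coprime m (e + 2) := by
        rw [hm, he, show (e + 1) ^ 2 + (e + 1) + 1 = 1 + (e + 2) * (e + 1) by ring]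
        simp
      have co2 : Nat.Coprime m (e + 1) := by
        rw [hm, he, show (e + 1) ^ 2 + (e + 1) + 1 = 1 + (e + 1) * (e + 2) by ring]
        simp
      refine ⟨fun h => hnd ?_, fun h => hnd ?_, fun h => hnd ?_⟩
      · rw [← pow_mul, hθ.pow_eq_one_iff_dvd, mul_comm e d] at h
        exact Nat.dvd_of_mul_dvd_mul_right he0 h
      · rw [← pow_mul, hθ.pow_eq_one_iff_dvd,
          show (e + 2) * e * d = ((e + 2) * d) * e by ring] at h
        exact co1.dvd_of_dvd_mul_left (Nat.dvd_of_mul_dvd_mul_right he0 h)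
      · rw [← pow_mul, ← pow_mul, prim_pow_eq hθ hn0, mul_comm e d,
          show (e + 2) * e * d = (d + (e + 1) * d) * e by ring] at h
        have h2 := Nat.ModEq.mul_right_cancel' he0.ne' h
        rw [Nat.modEq_iff_dvd' (Nat.le_add_right _ _), Nat.add_sub_cancel_left] at h2
        exact co2.dvd_of_dvd_mul_left h2
    · intro a ha b hb c hc
      obtain ⟨k1, k2, k3, hk123, e1⟩ := dep3 (LinearMap.ker φ) hK (hA ha) (hA hb) (hA hc)
      have e2 := congrArg (FiniteField.frobeniusAlgHom K L) e1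
      have e3 := congrArg (FiniteField.frobeniusAlgHom K L) e2
      simp only [map_add, map_smul, map_zero] at e2 e3
      simp only [FiniteField.coe_frobeniusAlgHom, he, Algebra.smul_def] at e1 e2 e3
      have hinj : ∀ k : K, ∀ i : ℕ, k ≠ 0 → algebraMap K L k * θ ^ i ≠ 0 := fun k i hk =>
        mul_ne_zero (by simpa using hk) (pow_ne_zero _ hθ0)
      refine col_of_dep (k1 := algebraMap K L k1 * θ ^ a) (k2 := algebraMap K L k2 * θ ^ b)
        (k3 := algebraMap K L k3 * θ ^ c) ?_ e1 ?_ ?_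
      · rcases hk123 with h | h | h
        · exact Or.inl (hinj _ _ h)
        · exact Or.inr (Or.inl (hinj _ _ h))
        · exact Or.inr (Or.inr (hinj _ _ h))
      · linear_combination e2
      · linear_combination e3

theorem bose_all {m : ℕ} {D : Set ℕ} (h : IsBose m D) :
    Nice m D ∧ ∀ (N : ℕ) (A : Set ℕ), N * N ≤ m → A ∩ Set.Iic N ⊆ D → Tern N A := by
  obtain ⟨K, L, _, _, _, _, θ, φ, hr, hθ, hφ, hm, rfl⟩ := h
  have : Module.Finite K L := Module.finite_of_finrank_pos (by omega)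
  have : Finite L := Module.finite_of_finite K
  let : Fintype L := Fintype.ofFinite L
  have hcard : Fintype.card L = Fintype.card K ^ 2 := by
    rw [Module.card_eq_pow_finrank (K := K), hr]
  have hq : 1 < Fintype.card K := Fintype.one_lt_card
  obtain ⟨e, he⟩ : ∃ e, Fintype.card K = e + 1 := ⟨Fintype.card K - 1, by omega⟩
  have he0 : 0 < e := by omega
  have hn : m = (e + 2) * e := by
    rw [hm, he]
    apply Nat.sub_eq_of_eq_add
    ring
  have hm0 : 0 < m := by rw [hn]; positivity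
  have hsurj := prim_surj (θ := θ) (by rw [hcard]; exact hθ)
  rw [← hm] at hθ
  have hθ0 : θ ≠ 0 := hθ.ne_zero hm0.ne'
  have hK : Module.finrank K (LinearMap.ker φ) ≤ 1 := by have := ker_lt φ hφ; omega
  have key : ∀ l t : L, t ≠ 0 → φ t = 0 → φ (l * t) = 0 → ∃ c : K, l = algebraMap K L c := by
    intro l t ht h1 h2
    obtain ⟨c, hc⟩ := dep2 (LinearMap.ker φ) hK h1 h2 ht
    exact ⟨c, mul_right_cancel₀ ht (by rw [hc, Algebra.smul_def])⟩
  refine ⟨⟨hm0, ?_, ?_, ?_⟩, ?_⟩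
  · intro i j hij hi
    show φ (θ ^ j) = 1
    rw [← (prim_pow_eq hθ hm0.ne' i j).2 hij]
    exact hi
  · intro a ha b hb c hc d hd habcd
    have ha' : φ (θ ^ a) = 1 := ha
    have hb' : φ (θ ^ b) = 1 := hb
    have hc' : φ (θ ^ c) = 1 := hc
    have hd' : φ (θ ^ d) = 1 := hd
    have hk := (prim_pow_eq hθ hm0.ne' _ _).2 habcd
    rw [pow_add, pow_add] at hk
    have z0 : θ ^ c ≠ 0 := pow_ne_zero _ hθ0
    rw [← prim_pow_eq hθ hm0.ne', ← prim_pow_eq hθ hm0.ne']
    by_cases hbc : θ ^ b = θ ^ c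
    · right
      rw [hbc, mul_comm] at hk
      exact mul_left_cancel₀ z0 hk
    · left
      set l := θ ^ a / θ ^ c with hl
      have l1 : l * θ ^ c = θ ^ a := div_mul_cancel₀ _ z0
      have l2 : l * θ ^ b = θ ^ d := by
        apply mul_left_cancel₀ z0
        rw [← mul_assoc, mul_comm _ l, l1, hk]
      obtain ⟨t, ht⟩ := key l (θ ^ b - θ ^ c) (sub_ne_zero.2 hbc) (by rw [map_sub, hb', hc', sub_self])
        (by rw [mul_sub, l1, l2, map_sub, ha', hd', sub_self])
      rw [ht, ← Algebra.smul_def] at l1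
      have h1 := congrArg φ l1
      rw [map_smul, ha', hc', smul_eq_mul, mul_one] at h1
      rw [← l1, h1, one_smul]
  · intro x _
    have z0 : θ ^ x ≠ 0 := pow_ne_zero _ hθ0
    refine ⟨fun s => ∃ c : K, θ ^ s = c • θ ^ x, fun _ => False, ?_, by simp, fun s hs => ?_⟩
    · rintro s hs t ht ⟨c, hc⟩ ⟨c', hc'⟩
      have hs' : φ (θ ^ s) = 1 := hs
      have ht' : φ (θ ^ t) = 1 := ht
      rw [← prim_pow_eq hθ hm0.ne', hc, hc']
      rw [hc, map_smul, smul_eq_mul] at hs'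
      rw [hc', map_smul, smul_eq_mul] at ht'
      have h0 : φ (θ ^ x) ≠ 0 := by
        intro h0
        rw [h0, mul_zero] at hs'
        exact zero_ne_one hs'
      rw [mul_right_cancel₀ h0 (hs'.trans ht'.symm)]
    · by_cases hP : ∃ c : K, θ ^ s = c • θ ^ x
      · exact Or.inl hP
      refine Or.inr (Or.inr ?_)
      set T := φ.prod (φ.comp (LinearMap.mulLeft K (θ ^ s / θ ^ x))) with hT
      have hTa : ∀ t, T t = (φ t, φ (θ ^ s / θ ^ x * t)) := fun t => rfl
      have hinj : Function.Injective T := by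
        rw [injective_iff_map_eq_zero]
        intro t ht
        by_contra ht0
        rw [hTa, Prod.mk_eq_zero] at ht
        obtain ⟨c, hc⟩ := key _ t ht0 ht.1 ht.2
        exact hP ⟨c, by rw [Algebra.smul_def, ← hc, div_mul_cancel₀ _ z0]⟩
      have hsur := (LinearMap.injective_iff_surjective_of_finrank_eq_finrank
        (f := T) (by simp [hr])).1 hinj
      obtain ⟨t, ht⟩ := hsur (1, 1)
      rw [hTa, Prod.mk.injEq] at ht
      have ht0 : t ≠ 0 := by
        rintro rfl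
        simp at ht
      obtain ⟨y, hy⟩ := hsurj t ht0
      obtain ⟨z, hz⟩ := hsurj (θ ^ s / θ ^ x * t)
        (mul_ne_zero (div_ne_zero (pow_ne_zero _ hθ0) z0) ht0)
      refine ⟨y, ?_, z, ?_, (prim_pow_eq hθ hm0.ne' _ _).1 ?_⟩
      · show φ (θ ^ y) = 1
        rw [hy]; exact ht.1
      · show φ (θ ^ z) = 1
        rw [hz]; exact ht.2
      · rw [pow_add, pow_add, hy, hz]
        field_simp
  · intro N A hN' hA
    have hNe : N ≤ e + 1 := by
      by_contra hc
      push Not at hc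
      nlinarith
    refine ⟨L, inferInstance, θ, θ ^ (e + 1), hθ0, pow_ne_zero _ hθ0, ?_, ?_⟩
    · intro d hd1 hd2
      have hnd : ¬ (e + 2) ∣ d := fun h => by have := Nat.le_of_dvd hd1 h; omega
      have co : Nat.Coprime (e + 2) (e + 1) := by
        rw [show e + 2 = 1 + (e + 1) by ring]; simp
      refine ⟨fun h => hnd ?_, fun h => hnd ?_, fun h => hnd ?_⟩
      · rw [hθ.pow_eq_one_iff_dvd, hn] at h
        exact (dvd_mul_right _ _).trans h
      · rw [← pow_mul, hθ.pow_eq_one_iff_dvd, hn] at h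
        exact co.dvd_of_dvd_mul_left ((dvd_mul_right _ _).trans h)
      · rw [← pow_mul, prim_pow_eq hθ hm0.ne', show (e + 1) * d = d + d * e by ring,
          Nat.modEq_iff_dvd' (Nat.le_add_right _ _), Nat.add_sub_cancel_left, hn] at h
        exact Nat.dvd_of_mul_dvd_mul_right he0 h
    · intro a ha b hb c hc
      have ha' : φ (θ ^ a) = 1 := hA ha
      have hb' : φ (θ ^ b) = 1 := hA hb
      have hc' : φ (θ ^ c) = 1 := hA hc
      obtain ⟨k1, k2, k3, hk123, e1⟩ := dep3 (⊤ : Submodule K L) (by simp [hr])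
        (Submodule.mem_top (x := θ ^ a)) (Submodule.mem_top (x := θ ^ b))
        (Submodule.mem_top (x := θ ^ c))
      have e2 := congrArg (FiniteField.frobeniusAlgHom K L) e1
      have e3 := congrArg φ e1
      simp only [map_add, map_smul, map_zero, ha', hb', hc', smul_eq_mul, mul_one] at e2 e3
      simp only [FiniteField.coe_frobeniusAlgHom, he, Algebra.smul_def] at e1 e2
      refine col_of_dep (k1 := algebraMap K L k1) (k2 := algebraMap K L k2)
        (k3 := algebraMap K L k3) ?_ ?_ e1 ?_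
      · simpa using hk123
      · rw [← map_add, ← map_add, e3, map_zero]
      · linear_combination e2

theorem ruzsa_all {m : ℕ} {D : Set ℕ} (h : IsRuzsa m D) :
    Nice m D ∧ ∀ (N : ℕ) (A : Set ℕ), (N + 2) * (N + 2) ≤ m → A ∩ Set.Iic N ⊆ D → Ruz N A := by
  obtain ⟨p, g, α, β, hp, hg, hα, hm, rfl⟩ := h
  have : Fact p.Prime := ⟨hp⟩
  have hp2 := hp.two_le
  obtain ⟨e, he⟩ : ∃ e, p = e + 1 := ⟨p - 1, by omega⟩
  have hsurj := prim_surj (θ := g) (by rw [ZMod.card]; exact hg)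
  have he' : p - 1 = e := by omega
  rw [he'] at hg hm
  have he0 : 0 < e := by omega
  have hm0 : 0 < m := by rw [hm]; positivity
  have hg0 : g ≠ 0 := hg.ne_zero he0.ne'
  have co : Nat.Coprime p e := by rw [he]; simp
  have M : ∀ i j : ℕ, i ≡ j [MOD m] ↔ (i : ZMod p) = j ∧ g ^ i = g ^ j := by
    intro i j
    rw [hm, ← Nat.modEq_and_modEq_iff_modEq_mul co, ZMod.natCast_eq_natCast_iff,
      prim_pow_eq hg he0.ne']
  have M1 : ∀ i j : ℕ, α * g ^ i = i + β → α * g ^ j = j + β → (i : ZMod p) = j →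
      i ≡ j [MOD m] := by
    intro i j hi hj h
    exact (M i j).2 ⟨h, mul_left_cancel₀ hα (by rw [hi, hj, h])⟩
  refine ⟨⟨hm0, ?_, ?_, ?_⟩, ?_⟩
  · intro i j hij hi
    have hi' : α * g ^ i = i + β := hi
    show α * g ^ j = j + β
    rw [← ((M i j).1 hij).1, ← ((M i j).1 hij).2, hi']
  · intro a ha b hb c hc d hd habcd
    have ha' : α * g ^ a = a + β := ha
    have hb' : α * g ^ b = b + β := hb
    have hc' : α * g ^ c = c + β := hc
    have hd' : α * g ^ d = d + β := hd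
    obtain ⟨h1, h2⟩ := (M _ _).1 habcd
    push_cast at h1
    rw [pow_add, pow_add] at h2
    have h3 : ((a : ZMod p) + β) * (b + β) = (c + β) * (d + β) := by
      rw [← ha', ← hb', ← hc', ← hd']
      linear_combination α ^ 2 * h2
    have h4 : ((a : ZMod p) - c) * (a - d) = 0 := by
      linear_combination (a + β) * h1 - h3
    rcases mul_eq_zero.1 h4 with h5 | h5
    · exact Or.inl (M1 a c ha' hc' (sub_eq_zero.1 h5))
    · exact Or.inr (M1 a d ha' hd' (sub_eq_zero.1 h5))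
  · intro x _
    refine ⟨fun s => g ^ s = g ^ x, fun s => (s : ZMod p) = x, ?_, ?_, fun s hs => ?_⟩
    · intro s hs t ht h1 h2
      have hs' : α * g ^ s = s + β := hs
      have ht' : α * g ^ t = t + β := ht
      refine M1 s t hs' ht' ?_
      rw [h1] at hs'
      rw [h2] at ht'
      exact add_right_cancel (hs'.symm.trans ht')
    · intro s hs t ht h1 h2
      exact M1 s t hs ht (h1.trans h2.symm)
    · by_cases c1 : g ^ s = g ^ x
      · exact Or.inl c1
      by_cases c2 : (s : ZMod p) = x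
      · exact Or.inr (Or.inl c2)
      refine Or.inr (Or.inr ?_)
      have z0 : g ^ x ≠ 0 := pow_ne_zero _ hg0
      have c3 : g ^ s - g ^ x ≠ 0 := sub_ne_zero.2 c1
      set ζ : ZMod p := (s - x) * g ^ x / (g ^ s - g ^ x) with hζ
      have hζ0 : ζ ≠ 0 := div_ne_zero (mul_ne_zero (sub_ne_zero.2 c2) z0) c3
      have hζ1 : ζ * (g ^ s - g ^ x) = (s - x) * g ^ x := div_mul_cancel₀ _ c3
      obtain ⟨j, hj⟩ := hsurj (ζ / α) (div_ne_zero hζ0 hα)
      obtain ⟨y, hy1, hy2⟩ := Nat.chineseRemainder co (ζ - β).val j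
      have y1 : (y : ZMod p) = ζ - β := by
        rw [(ZMod.natCast_eq_natCast_iff _ _ _).2 hy1, ZMod.natCast_zmod_val]
      have y2 : α * g ^ y = ζ := by
        rw [(prim_pow_eq hg he0.ne' _ _).2 hy2, hj]
        field_simp
      have hz : s + y ≡ x + (s + y + (m - 1) * x) [MOD m] := by
        have e1 : x + (s + y + (m - 1) * x) = s + y + m * x := by
          obtain ⟨m', rfl⟩ : ∃ m', m = m' + 1 := ⟨m - 1, by omega⟩
          rw [Nat.add_sub_cancel]; ring
        rw [e1]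
        simp [Nat.ModEq]
      refine ⟨y, ?_, s + y + (m - 1) * x, ?_, hz⟩
      · show α * g ^ y = y + β
        rw [y1, y2]; ring
      · generalize s + y + (m - 1) * x = z at hz
        obtain ⟨h1, h2⟩ := (M _ _).1 hz
        push_cast at h1
        rw [pow_add, pow_add] at h2
        show α * g ^ z = z + β
        apply mul_left_cancel₀ z0
        linear_combination hζ1 - α * h2 + g ^ s * y2 + g ^ x * h1 - g ^ x * y1
  · intro N A hN' hA
    have hNe : N < e := by
      by_contra hc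
      push Not at hc
      rw [hm, he] at hN'
      nlinarith
    refine ⟨ZMod p, inferInstance, g, hg0, ?_, ?_⟩
    · intro d hd1 hd2
      refine ⟨fun h => ?_, fun h => ?_⟩
      · have := Nat.le_of_dvd hd1 ((hg.pow_eq_one_iff_dvd d).1 h)
        omega
      · have := Nat.le_of_dvd hd1 ((ZMod.natCast_eq_zero_iff d p).1 h)
        omega
    · intro a ha b hb c hc
      have ha' : α * g ^ a = a + β := hA ha
      have hb' : α * g ^ b = b + β := hA hb
      have hc' : α * g ^ c = c + β := hA hc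
      apply mul_left_cancel₀ hα
      linear_combination ((c : ZMod p) - a) * (hb' - ha') - ((b : ZMod p) - a) * (hc' - ha')

end Pool.Agent.MP_1609a8_nt

end

-- part MP_1609a8_nt.Main
section

set_option autoImplicit false

namespace Pool.Agent.MP_1609a8_nt

open Finset

theorem nice_of_classical {m : ℕ} {D : Set ℕ} (h : IsClassical m D) : Nice m D := by
  rcases h with h | h | h
  · exact (singer_all h).1
  · exact (bose_all h).1
  · exact (ruzsa_all h).1

theorem tern_mono {N N' : ℕ} {A : Set ℕ} (h : N ≤ N') (hT : Tern N' A) : Tern N A := by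
  obtain ⟨F, _, u, v, h1, h2, h3, h4⟩ := hT
  exact ⟨F, inferInstance, u, v, h1, h2, fun d hd hd' => h3 d hd (hd'.trans h),
    fun a ha b hb c hc => h4 a ⟨ha.1, ha.2.trans h⟩ b ⟨hb.1, hb.2.trans h⟩ c ⟨hc.1, hc.2.trans h⟩⟩

theorem ruz_mono {N N' : ℕ} {A : Set ℕ} (h : N ≤ N') (hT : Ruz N' A) : Ruz N A := by
  obtain ⟨F, _, u, h1, h3, h4⟩ := hT
  exact ⟨F, inferInstance, u, h1, fun d hd hd' => h3 d hd (hd'.trans h),
    fun a ha b hb c hc => h4 a ⟨ha.1, ha.2.trans h⟩ b ⟨hb.1, hb.2.trans h⟩ c ⟨hc.1, hc.2.trans h⟩⟩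

theorem lac_of_classical (A : Set ℕ)
    (h : ∀ N : ℕ, ∃ m ≥ N, ∃ D : Set ℕ, IsClassical m D ∧ A ∩ Set.Iic N ⊆ D) : Lac A := by
  have h1 : ∀ N, Tern N A ∨ Ruz N A := by
    intro N
    obtain ⟨m, hm, D, hD, hA⟩ := h ((N + 2) * (N + 2))
    have hN : N ≤ (N + 2) * (N + 2) := by nlinarith
    have hA' : A ∩ Set.Iic N ⊆ D := fun a ha => hA ⟨ha.1, ha.2.trans hN⟩
    rcases hD with hD | hD | hD
    · exact Or.inl ((singer_all hD).2 N A (by nlinarith) hA')
    · exact Or.inl ((bose_all hD).2 N A (by nlinarith) hA')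
    · exact Or.inr ((ruzsa_all hD).2 N A hm hA')
  by_cases h2 : ∀ N, Tern N A
  · exact lac_tern A h2
  · push Not at h2
    obtain ⟨N0, hN0⟩ := h2
    refine lac_ruz A fun N => ruz_mono (le_max_left N N0) ?_
    exact (h1 (max N N0)).resolve_left fun h3 => hN0 (tern_mono (le_max_right N N0) h3)

theorem le_sqrt_of {k m : ℕ} (h : k * k ≤ m) : (k : ℝ) ≤ √m :=
  Real.le_sqrt_of_sq_le (by rw [sq]; exact_mod_cast h)

theorem barrier (A : Set ℕ)
    (hA : ∀ a ∈ A, ∀ b ∈ A, ∀ c ∈ A, ∀ d ∈ A, a + b = c + d → a = c ∨ a = d) :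
    ∃ m₀ : ℕ, ∀ m ≥ m₀, ∀ D : Set ℕ, IsClassical m D →
      ((A ∩ D ∩ Set.Icc 1 m).ncard : ℝ) < 0.996 * √m := by
  classical
  by_contra hc
  push Not at hc
  obtain ⟨C, hC⟩ : Lac A := by
    refine lac_of_classical A fun N => ?_
    obtain ⟨m, hm, D, hD, h⟩ := hc ((1000 * (N + 5)) * (1000 * (N + 5)))
    refine ⟨m, by nlinarith, D, hD, fun x hx => ?_⟩
    by_contra hxD
    have h1 := le_sqrt_of hm
    have h2 : (x : ℝ) ≤ N := by exact_mod_cast hx.2
    push_cast at h1
    exact absurd (comb (nice_of_classical hD) A hA x hx.1 hxD (by linarith)) (not_lt.2 h)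
  obtain ⟨m, hm, D, hD, h⟩ := hc ((20 * C + 10) * (20 * C + 10))
  have h1 := le_sqrt_of hm
  push_cast at h1
  set T := m / 8 with hT
  have hm100 : 100 ≤ m := by nlinarith
  have hT9 : m ≤ 9 * T := by omega
  have hT0 : 0 < T := by omega
  set P := {a ∈ range T | a ∈ A} with hP
  set H := {a ∈ Icc T m | a ∈ A} with hH
  have hsub : A ∩ D ∩ Set.Icc 1 m ⊆ ↑(P ∪ H) := by
    intro a ha
    simp only [hP, hH, coe_union, coe_filter, mem_range, mem_Icc, Set.mem_union, Set.mem_ofPred_eq]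
    have := ha.2.2
    by_cases c : a < T
    · exact Or.inl ⟨c, ha.1.1⟩
    · exact Or.inr ⟨⟨by omega, this⟩, ha.1.1⟩
  have h2 := Set.ncard_le_ncard hsub (Finset.finite_toSet _)
  rw [Set.ncard_coe_finset] at h2
  have h3 := card_union_le P H
  have h4 := card_short P T (fun a ha b hb c hc d hd => hA a (mem_filter.1 ha).2 b
    (mem_filter.1 hb).2 c (mem_filter.1 hc).2 d (mem_filter.1 hd).2)
    (fun a ha b _ => by have := mem_range.1 (mem_filter.1 ha).1; omega)
  have h5 : #H ≤ 9 * C + 1 := by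
    have key : ∀ a ∈ H, ∀ b ∈ H, a < b → C * a / T < C * b / T := by
      intro a ha b hb hab
      have i1 := hC a (mem_filter.1 ha).2 b (mem_filter.1 hb).2 hab
      have i2 := (mem_Icc.1 (mem_filter.1 ha).1).1
      have i3 : C * a + T ≤ C * b := by
        obtain ⟨d, rfl⟩ := Nat.exists_eq_add_of_le hab.le
        rw [Nat.add_sub_cancel_left] at i1
        rw [mul_add]
        omega
      have i4 := Nat.div_le_div_right (c := T) i3
      rw [Nat.add_div_right _ hT0] at i4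
      omega
    have := card_le_card_of_injOn (s := H) (t := range (9 * C + 1)) (fun a => C * a / T) ?_ ?_
    · simpa using this
    · intro a ha
      have i2 := (mem_Icc.1 (mem_filter.1 ha).1).2
      simp only [coe_range, Set.mem_Iio]
      have : C * a / T ≤ 9 * C := Nat.div_le_of_le_mul (by nlinarith)
      omega
    · intro a ha b hb hab
      rcases lt_trichotomy a b with c | c | c
      · exact absurd hab (key a ha b hb c).ne
      · exact c
      · exact absurd hab (key b hb a ha c).ne'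
  set r := √(m : ℝ) with hr
  have hr0 : 0 ≤ r := Real.sqrt_nonneg _
  have hrm : (m : ℝ) = r ^ 2 := (Real.sq_sqrt (Nat.cast_nonneg m)).symm
  have hT1 : (8 : ℝ) * T ≤ m := by exact_mod_cast (by omega : 8 * T ≤ m)
  have h6 : (#P : ℝ) ≤ r / 2 + 1 := le_sqrt_add_one (by positivity) (by nlinarith)
  have h7 : ((A ∩ D ∩ Set.Icc 1 m).ncard : ℝ) ≤ #P + (9 * C + 1) := by
    exact_mod_cast h2.trans (h3.trans (Nat.add_le_add_left h5 _))
  have hC0 : (0 : ℝ) ≤ C := Nat.cast_nonneg _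
  linarith

end Pool.Agent.MP_1609a8_nt

end
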